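import Pool.Agent.N931.PN.Stm3

/-!
# PN/CNT (helper787, project PN of helper931): cells
-/

set_option autoImplicit false

namespace Pool.Agent.N787.PN.Cnt

open H974 H12S H984N H984P H342P Finset

theorem div_near {w : ℕ} (hw : 1 ≤ w) {x y : ℤ} (h : x / (w : ℤ) = y / (w : ℤ)) :
    x - y < w ∧ y - x < w := by
  have hw' : (0 : ℤ) < w := by exact_mod_cast hw
  have h1 := Int.mul_ediv_add_emod x w
  have h2 := Int.mul_ediv_add_emod y w
  have h3 := Int.emod_nonneg x hw'.ne'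
  have h4 := Int.emod_lt_of_pos x hw'
  have h5 := Int.emod_nonneg y hw'.ne'
  have h6 := Int.emod_lt_of_pos y hw'
  rw [h] at h1
  constructor <;> linarith

theorem blk_of (w : ℕ) (hw : 1 ≤ w) (e e' : Edg)
    (h : ((e'.1 / (w : ℤ), e'.2.1 / (w : ℤ)) : ℤ × ℤ) = (e.1 / (w : ℤ), e.2.1 / (w : ℤ))) :
    e' ∈ blk (src e) w := by
  have h1 : e'.1 / (w : ℤ) = e.1 / (w : ℤ) := congrArg Prod.fst h
  have h2 : e'.2.1 / (w : ℤ) = e.2.1 / (w : ℤ) := congrArg Prod.snd h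
  have h3 := div_near hw h1
  have h4 := div_near hw h2
  obtain ⟨x', y', b'⟩ := e'
  obtain ⟨x, y, b⟩ := e
  simp only at h3 h4
  cases b'
  · rw [blk, mem_RE_false]
    simp only [src]
    omega
  · rw [blk, mem_RE_true]
    simp only [src]
    omega

theorem card_div {w : ℕ} (hw : 1 ≤ w) {a b : ℤ} (h : a ≤ b) :
    ((Finset.Icc (a / (w : ℤ)) (b / (w : ℤ))).card : ℝ) ≤ ((b : ℝ) - a) / w + 2 := by
  have hw' : (0 : ℤ) < w := by exact_mod_cast hw
  have hwR : (0 : ℝ) < w := by exact_mod_cast hw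
  have h1 := Int.mul_ediv_add_emod a w
  have h2 := Int.mul_ediv_add_emod b w
  have h3 := Int.emod_nonneg b hw'.ne'
  have h4 := Int.emod_lt_of_pos a hw'
  have h5 : a / (w : ℤ) ≤ b / (w : ℤ) := Int.ediv_le_ediv hw' h
  rw [Int.card_Icc]
  have h6 : (((b / (w : ℤ) + 1 - a / (w : ℤ)).toNat : ℕ) : ℝ) =
      ((b / (w : ℤ) + 1 - a / (w : ℤ) : ℤ) : ℝ) := by
    rw [← Int.cast_natCast, Int.toNat_of_nonneg (by omega)]
  rw [h6]
  have h7 : (w : ℤ) * (b / (w : ℤ) - a / (w : ℤ) - 1) ≤ b - a := by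
    have : (w : ℤ) * (b / (w : ℤ) - a / (w : ℤ) - 1) =
      (w : ℤ) * (b / (w : ℤ)) - (w : ℤ) * (a / (w : ℤ)) - w := by ring
    linarith
  have h8 : (w : ℝ) * (((b / (w : ℤ) : ℤ) : ℝ) - ((a / (w : ℤ) : ℤ) : ℝ) - 1) ≤ (b : ℝ) - a := by
    exact_mod_cast h7
  have h9 : ((b / (w : ℤ) : ℤ) : ℝ) - ((a / (w : ℤ) : ℤ) : ℝ) - 1 ≤ ((b : ℝ) - a) / w := by
    rw [le_div_iff₀ hwR]
    linarith
  push_cast
  linarith

theorem edge_box {D : Dm} {e : Edg} (h : e ∈ D.edges) :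
    D.l ≤ e.1 ∧ e.1 ≤ D.r ∧ 0 ≤ e.2.1 ∧ e.2.1 ≤ D.h := by
  obtain ⟨x, y, b⟩ := e
  cases b
  · rw [Dm.edges, mem_RE_false] at h
    simp only
    omega
  · rw [Dm.edges, mem_RE_true] at h
    simp only
    omega

/-- the cells of a set of edges in a box -/
theorem img_le (S : Finset Edg) {w : ℕ} (hw : 1 ≤ w) {a b c d : ℤ} (hab : a ≤ b) (hcd : c ≤ d)
    (h : ∀ e ∈ S, a ≤ e.1 ∧ e.1 ≤ b ∧ c ≤ e.2.1 ∧ e.2.1 ≤ d) {x y : ℝ}
    (hx : ((b : ℝ) - a) / w + 2 ≤ x) (hy : ((d : ℝ) - c) / w + 2 ≤ y) :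
    ((S.image fun e : Edg => ((e.1 / (w : ℤ), e.2.1 / (w : ℤ)) : ℤ × ℤ)).card : ℝ) ≤ x * y := by
  have hw' : (0 : ℤ) < w := by exact_mod_cast hw
  have h1 : (S.image fun e : Edg => ((e.1 / (w : ℤ), e.2.1 / (w : ℤ)) : ℤ × ℤ)) ⊆
      Finset.Icc (a / (w : ℤ)) (b / (w : ℤ)) ×ˢ Finset.Icc (c / (w : ℤ)) (d / (w : ℤ)) := by
    intro q hq
    rw [Finset.mem_image] at hq
    obtain ⟨e, he, rfl⟩ := hq
    obtain ⟨h2, h3, h4, h5⟩ := h e he
    rw [Finset.mem_product, Finset.mem_Icc, Finset.mem_Icc]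
    exact ⟨⟨Int.ediv_le_ediv hw' h2, Int.ediv_le_ediv hw' h3⟩,
      Int.ediv_le_ediv hw' h4, Int.ediv_le_ediv hw' h5⟩
  have h2 := Finset.card_le_card h1
  rw [Finset.card_product] at h2
  calc ((S.image fun e : Edg => ((e.1 / (w : ℤ), e.2.1 / (w : ℤ)) : ℤ × ℤ)).card : ℝ) ≤
      ((Finset.Icc (a / (w : ℤ)) (b / (w : ℤ))).card : ℝ) *
        ((Finset.Icc (c / (w : ℤ)) (d / (w : ℤ))).card : ℝ) := by exact_mod_cast h2
    _ ≤ x * y := by
        have h3 := (card_div hw hab).trans hx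
        have h4 := (card_div hw hcd).trans hy
        exact mul_le_mul h3 h4 (Nat.cast_nonneg _) ((Nat.cast_nonneg _).trans h3)

theorem core : ∀ (n κ : ℝ) (D : Dm), 1 ≤ n → 0 < κ → D.Shape κ n → ∀ w : ℕ, 1 ≤ w →
    (w : ℝ) ≤ n →
    (((D.edges.image fun e : Edg => ((e.1 / (w : ℤ), e.2.1 / (w : ℤ)) : ℤ × ℤ)).card : ℝ) ≤
      36 * (n / w) ^ 2) ∧
    ((((D.edges.filter (fun e => D.bd (src e) < w)).image
      fun e : Edg => ((e.1 / (w : ℤ), e.2.1 / (w : ℤ)) : ℤ × ℤ)).card : ℝ) ≤ 36 * (n / w)) := by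
  intro n κ D hn hκ hS w hw hwn
  have hwR : (0 : ℝ) < w := by exact_mod_cast hw
  have hq : 1 ≤ n / w := by rw [le_div_iff₀ hwR]; linarith
  have hl := hS.ok.l_neg
  have hr := hS.ok.r_pos
  have hh := hS.ok.h_pos
  have e1 : ((D.r : ℝ) - D.l) / w + 2 ≤ 3 * (n / w) := by
    have h1 : ((D.r : ℝ) - D.l) / w ≤ n / w := by
      have := hS.w_le
      push_cast at this
      exact div_le_div_of_nonneg_right this hwR.le
    linarith
  have e2 : ((D.h : ℝ) - ((0 : ℤ) : ℝ)) / w + 2 ≤ 3 * (n / w) := by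
    have h1 : ((D.h : ℝ) - ((0 : ℤ) : ℝ)) / w ≤ n / w := by
      have := hS.h_le
      rw [Int.cast_zero, sub_zero]
      exact div_le_div_of_nonneg_right this hwR.le
    linarith
  have e3 : ∀ a : ℤ, ((((a + w : ℤ) : ℝ)) - (a : ℝ)) / w + 2 ≤ 3 := by
    intro a
    push_cast
    have : ((a : ℝ) + w - a) / w = 1 := by
      rw [add_sub_cancel_left, div_self hwR.ne']
    linarith
  constructor
  · have h1 := img_le D.edges hw (a := D.l) (b := D.r) (c := 0) (d := D.h) (by omega) hh.le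
      (fun e he => edge_box he) e1 e2
    nlinarith
  · have hsub : ((D.edges.filter (fun e => D.bd (src e) < w)).image
        fun e : Edg => ((e.1 / (w : ℤ), e.2.1 / (w : ℤ)) : ℤ × ℤ)) ⊆
        (((D.edges.filter (fun e => e.1 ≤ D.l + w)).image
            fun e : Edg => ((e.1 / (w : ℤ), e.2.1 / (w : ℤ)) : ℤ × ℤ)) ∪
          ((D.edges.filter (fun e => D.r - w ≤ e.1)).image
            fun e : Edg => ((e.1 / (w : ℤ), e.2.1 / (w : ℤ)) : ℤ × ℤ))) ∪
        (((D.edges.filter (fun e => e.2.1 ≤ (0 : ℤ) + w)).image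
            fun e : Edg => ((e.1 / (w : ℤ), e.2.1 / (w : ℤ)) : ℤ × ℤ)) ∪
          ((D.edges.filter (fun e => D.h - w ≤ e.2.1)).image
            fun e : Edg => ((e.1 / (w : ℤ), e.2.1 / (w : ℤ)) : ℤ × ℤ))) := by
      rw [← Finset.image_union, ← Finset.image_union, ← Finset.image_union]
      refine Finset.image_subset_image fun e he => ?_
      rw [Finset.mem_filter] at he
      obtain ⟨he1, he2⟩ := he
      simp only [Dm.bd, src, min_lt_iff] at he2
      simp only [Finset.mem_union, Finset.mem_filter]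
      rcases he2 with (h | h) | (h | h)
      · exact Or.inl (Or.inl ⟨he1, by omega⟩)
      · exact Or.inl (Or.inr ⟨he1, by omega⟩)
      · exact Or.inr (Or.inl ⟨he1, by omega⟩)
      · exact Or.inr (Or.inr ⟨he1, by omega⟩)
    have h1 := img_le (D.edges.filter (fun e => e.1 ≤ D.l + w)) hw (a := D.l) (b := D.l + w)
      (c := 0) (d := D.h) (by omega) hh.le (fun e he => by
        obtain ⟨he1, he2⟩ := Finset.mem_filter.1 he
        obtain ⟨g1, g2, g3, g4⟩ := edge_box he1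
        exact ⟨g1, he2, g3, g4⟩) (e3 D.l) e2
    have h2 := img_le (D.edges.filter (fun e => D.r - w ≤ e.1)) hw (a := D.r - w)
      (b := D.r - w + w) (c := 0) (d := D.h) (by omega) hh.le (fun e he => by
        obtain ⟨he1, he2⟩ := Finset.mem_filter.1 he
        obtain ⟨g1, g2, g3, g4⟩ := edge_box he1
        exact ⟨he2, by omega, g3, g4⟩) (e3 (D.r - w)) e2
    have h3 := img_le (D.edges.filter (fun e => e.2.1 ≤ (0 : ℤ) + w)) hw (a := D.l) (b := D.r)
      (c := 0) (d := 0 + w) (by omega) (by omega) (fun e he => by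
        obtain ⟨he1, he2⟩ := Finset.mem_filter.1 he
        obtain ⟨g1, g2, g3, g4⟩ := edge_box he1
        exact ⟨g1, g2, g3, he2⟩) e1 (e3 0)
    have h4 := img_le (D.edges.filter (fun e => D.h - w ≤ e.2.1)) hw (a := D.l) (b := D.r)
      (c := D.h - w) (d := D.h - w + w) (by omega) (by omega) (fun e he => by
        obtain ⟨he1, he2⟩ := Finset.mem_filter.1 he
        obtain ⟨g1, g2, g3, g4⟩ := edge_box he1
        exact ⟨g1, g2, he2, by omega⟩) e1 (e3 (D.h - w))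
    have h5 := (Finset.card_le_card hsub).trans ((Finset.card_union_le _ _).trans
      (add_le_add (Finset.card_union_le _ _) (Finset.card_union_le _ _)))
    have h6 := (Nat.cast_le (α := ℝ)).2 h5
    push_cast at h6
    linarith

theorem main : Pool.Agent.N931.PN.S_CNT :=
  ⟨fun w hw e e' h => blk_of w hw e e' h, 36, by norm_num, fun n κ D hn hκ hS w hw hwn =>
    core n κ D hn hκ hS w hw hwn⟩

end Pool.Agent.N787.PN.Cnt
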